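import Pool.Agent.H277R3.MomV

set_option autoImplicit false

/-!
An unconditional lower bound for the `2k`-th moment of zeta on the critical line, of the
conjectured order and with the conjectured arithmetic factor divided by `Γ(k² + 1)`, up to the
absolute factor `exp (-14)`, for every rational `k > 1` and over every interval `[T, T + U]`
with `U ≥ (log T) ^ B`.
-/

open Filter

theorem Pool.Agent.Results.MP_973905_nt.AllRationalPolylog.lc_gamma (κ : ℝ) (hκ : 0 < κ)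
    (m : ℕ) :
    Pool.Agent.H306R2.lc κ m =
      Real.Gamma (κ + m) / (Real.Gamma κ * (m.factorial : ℝ)) := by
  have hG : Real.Gamma κ ≠ 0 := (Real.Gamma_pos_of_pos hκ).ne'
  unfold Pool.Agent.H306R2.lc
  induction m with
  | zero => simp [hG]
  | succ m ih =>
    rw [Finset.prod_range_succ, ih]
    have h1 : κ + ((m + 1 : ℕ) : ℝ) = (κ + m) + 1 := by push_cast; ring
    have h2 : κ + (m : ℝ) ≠ 0 := by positivity
    rw [h1, Real.Gamma_add_one h2, Nat.factorial_succ]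
    have h3 : (m.factorial : ℝ) ≠ 0 := by exact_mod_cast m.factorial_ne_zero
    have h4 : (m : ℝ) + 1 ≠ 0 := by positivity
    push_cast
    field_simp

theorem Pool.Agent.Results.MP_973905_nt.AllRationalPolylog.aF_gamma (κ : ℝ) (hκ : 0 < κ) :
    Pool.Agent.H306R2.aF κ =
      ∏' p : Nat.Primes, ((1 - ((p : ℕ) : ℝ)⁻¹) ^ (κ ^ 2) *
          ∑' m : ℕ, (Real.Gamma (κ + m) / (Real.Gamma κ * (m.factorial : ℝ))) ^ 2 *
            ((p : ℕ) : ℝ)⁻¹ ^ m) := by
  unfold Pool.Agent.H306R2.aF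
  refine tprod_congr fun p => ?_
  rw [one_div]
  congr 1
  refine tsum_congr fun m => ?_
  rw [Pool.Agent.Results.MP_973905_nt.AllRationalPolylog.lc_gamma κ hκ]

theorem Pool.Agent.Results.MP_973905_nt.AllRationalPolylog.result (k : ℚ) (hk : 1 < k) :
    ∃ B : ℝ, 0 < B ∧ ∀ᶠ T : ℝ in atTop, ∀ U : ℝ, Real.log T ^ B ≤ U →
      Real.exp (-14) / Real.Gamma ((k : ℝ) ^ 2 + 1) *
        (∏' p : Nat.Primes, ((1 - ((p : ℕ) : ℝ)⁻¹) ^ ((k : ℝ) ^ 2) *
          ∑' m : ℕ, (Real.Gamma ((k : ℝ) + m) / (Real.Gamma (k : ℝ) * (m.factorial : ℝ))) ^ 2 *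
            ((p : ℕ) : ℝ)⁻¹ ^ m)) * Real.log U ^ ((k : ℝ) ^ 2) ≤
      U⁻¹ * ∫ t in T..(T + U), ‖riemannZeta (1 / 2 + t * Complex.I)‖ ^ (2 * (k : ℝ)) := by
  have hk0 : (0 : ℝ) < (k : ℝ) := by exact_mod_cast (lt_trans one_pos hk)
  obtain ⟨B, hB, h⟩ := Pool.Agent.H277R3.MomU.all_rat k hk
  refine ⟨B, hB, ?_⟩
  filter_upwards [h, eventually_gt_atTop 1] with T hT hT0 U hU
  have hU0 : 0 < U := lt_of_lt_of_le (Real.rpow_pos_of_pos (Real.log_pos hT0) _) hU
  have hT' := hT U hU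
  rw [← div_eq_inv_mul, le_div_iff₀ hU0]
  rw [Pool.Agent.Results.MP_973905_nt.AllRationalPolylog.aF_gamma (k : ℝ) hk0] at hT'
  refine le_trans (le_of_eq ?_) hT'
  ring
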